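import Mathlib

set_option autoImplicit false

namespace Pool.Agent.Results.MP_c42e77_an.ContinuumLevel

open Cardinal Set

/-- The subsum `f(ε) = ∑ ε_n x_n` of the series `x` selected by `ε ∈ {0,1}^ℕ`. -/
noncomputable def subsum (x : ℕ → ℝ) (ε : ℕ → Bool) : ℝ := ∑' n, if ε n then x n else 0

/-- The cardinality function `F_x(t) = card f⁻¹(t)`. -/
noncomputable def cardFun (x : ℕ → ℝ) (t : ℝ) : Cardinal := #{ε : ℕ → Bool // subsum x ε = t}

/-- The level set `L_κ(x) = {t : F_x(t) = κ}`. -/
def level (x : ℕ → ℝ) (κ : Cardinal) : Set ℝ := {t | cardFun x t = κ}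

/-! ### The combinatorial lemma -/

section Comb

/-- closed uncountable subset of `C` -/
def Good (C D : Set (ℕ → Bool)) : Prop := IsClosed D ∧ ¬ D.Countable ∧ D ⊆ C

lemma isClosed_coord (n : ℕ) (b : Bool) : IsClosed {ε : ℕ → Bool | ε n = b} :=
  isClosed_eq (continuous_apply n) continuous_const

lemma mk_cantor : #(ℕ → Bool) = 𝔠 := by
  rw [← Cardinal.power_def]
  simp

lemma not_countable_cantor : ¬ Countable (ℕ → Bool) := by
  intro h
  have h1 := Cardinal.mk_le_aleph0_iff.mpr h
  rw [mk_cantor] at h1
  exact absurd h1 (not_le.mpr Cardinal.aleph0_lt_continuum)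

/-- an uncountable set splits along some coordinate -/
lemma exists_split (D : Set (ℕ → Bool)) (hD : ¬ D.Countable) :
    ∃ m, ¬ (D ∩ {ε | ε m = false}).Countable ∧ ¬ (D ∩ {ε | ε m = true}).Countable := by
  by_contra hcon
  push Not at hcon
  -- for each m choose the bit with countable part
  have h : ∀ m, ∃ b : Bool, (D ∩ {ε | ε m = b}).Countable := by
    intro m
    by_cases h0 : (D ∩ {ε | ε m = false}).Countable
    · exact ⟨false, h0⟩
    · exact ⟨true, hcon m h0⟩
  choose b hb using h
  apply hD
  have hsub : D ⊆ (⋃ m, (D ∩ {ε | ε m = b m})) ∪ {fun m => !(b m)} := by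
    intro ε hε
    by_cases hex : ∃ m, ε m = b m
    · obtain ⟨m, hm⟩ := hex
      left
      exact mem_iUnion.mpr ⟨m, hε, hm⟩
    · right
      push Not at hex
      rw [mem_singleton_iff]
      funext m
      have := hex m
      cases h1 : ε m <;> cases h2 : b m <;> simp_all
  exact ((countable_iUnion hb).union (countable_singleton _)).mono hsub

lemma comb (C : Set (ℕ → Bool)) (hC : IsClosed C) (hunc : ¬ C.Countable) :
    ∃ B : Set ℕ, B.Infinite ∧ ∃ δ : ℕ → Bool,
      ¬ {ε | ε ∈ C ∧ ∀ n ∈ B, ε n = δ n}.Countable := by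
  classical
  by_contra hcon
  push Not at hcon
  -- zero patterns are available for all large coordinates
  have hfin : ∀ D, Good C D → {n | (D ∩ {ε | ε n = false}).Countable}.Finite := by
    intro D hD
    by_contra hinf
    have hB := hcon {n | (D ∩ {ε | ε n = false}).Countable} hinf (fun _ => true)
    apply hD.2.1
    have hsub : D ⊆ {ε | ε ∈ C ∧ ∀ n ∈ {n | (D ∩ {ε | ε n = false}).Countable}, ε n = true} ∪
        ⋃ n ∈ {n | (D ∩ {ε | ε n = false}).Countable}, (D ∩ {ε | ε n = false}) := by
      intro ε hε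
      by_cases hall : ∀ n ∈ {n | (D ∩ {ε | ε n = false}).Countable}, ε n = true
      · left; exact ⟨hD.2.2 hε, hall⟩
      · right
        push Not at hall
        obtain ⟨n, hn, hne⟩ := hall
        simp only [mem_iUnion]
        exact ⟨n, hn, hε, by simpa using hne⟩
    refine (hB.union ?_).mono hsub
    exact (to_countable _).biUnion fun n hn => hn
  have hlarge : ∀ D, Good C D → ∃ N, ∀ n, N ≤ n → ¬ (D ∩ {ε | ε n = false}).Countable := by
    intro D hD
    obtain ⟨N, hN⟩ := (hfin D hD).bddAbove
    refine ⟨N + 1, fun n hn hcount => ?_⟩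
    have := hN hcount
    omega
  -- one step of the fusion
  let St := {p : (List Bool → Set (ℕ → Bool)) × ℕ // ∀ s, Good C (p.1 s)}
  have step : ∀ (k : ℕ) (p : St), ∃ q : St, p.1.2 < q.1.2 ∧
      (∀ s : List Bool, s.length = k → ∀ b : Bool,
        q.1.1 (s ++ [b]) ⊆ p.1.1 s ∩ {ε | ε q.1.2 = false}) ∧
      (∀ s : List Bool, s.length = k → Disjoint (q.1.1 (s ++ [false])) (q.1.1 (s ++ [true]))) := by
    intro k p
    choose N hN using fun s : List Bool => hlarge (p.1.1 s) (p.2 s)
    have hfinl : {s : List Bool | s.length = k}.Finite := List.finite_length_eq Bool k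
    obtain ⟨M, hM⟩ := (hfinl.image N).bddAbove
    set n := max M (p.1.2 + 1) with hn
    have hunc' : ∀ s : List Bool, s.length = k → ¬ (p.1.1 s ∩ {ε | ε n = false}).Countable := by
      intro s hs
      apply hN s
      exact (hM (mem_image_of_mem N hs)).trans (le_max_left _ _)
    have hsplit : ∀ s : List Bool, ∃ g : Bool → Set (ℕ → Bool), (∀ b, Good C (g b)) ∧
        (s.length = k → (∀ b, g b ⊆ p.1.1 s ∩ {ε | ε n = false}) ∧
          Disjoint (g false) (g true)) := by
      intro s
      by_cases hs : s.length = k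
      · obtain ⟨m, h0, h1⟩ := exists_split _ (hunc' s hs)
        refine ⟨fun b => (p.1.1 s ∩ {ε | ε n = false}) ∩ {ε | ε m = b}, ?_, fun _ => ⟨?_, ?_⟩⟩
        · intro b
          refine ⟨(((p.2 s).1.inter (isClosed_coord n false)).inter (isClosed_coord m b)), ?_, ?_⟩
          · cases b
            · exact h0
            · exact h1
          · exact (inter_subset_left.trans inter_subset_left).trans (p.2 s).2.2
        · intro b; exact inter_subset_left
        · rw [Set.disjoint_left]
          rintro ε ⟨_, h2⟩ ⟨_, h3⟩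
          simp only [mem_ofPred_eq] at h2 h3
          rw [h2] at h3
          exact absurd h3 (by simp)
      · exact ⟨fun _ => C, fun _ => ⟨hC, hunc, subset_rfl⟩, fun h => absurd h hs⟩
    choose g hg hg2 using hsplit
    refine ⟨⟨(fun t => g t.dropLast (t.getLastD false), n), fun t => hg _ _⟩, ?_, ?_, ?_⟩
    · change p.1.2 < n
      have := le_max_right M (p.1.2 + 1)
      omega
    · intro s hs b
      have := (hg2 s hs).1 b
      simpa using this
    · intro s hs
      have := (hg2 s hs).2
      simpa using this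
  choose nx hnx1 hnx2 hnx3 using step
  let sq : ℕ → St := fun k => Nat.rec ⟨(fun _ => C, 0), fun _ => ⟨hC, hunc, subset_rfl⟩⟩
    (fun k p => nx k p) k
  have hsq : ∀ k, sq (k + 1) = nx k (sq k) := fun k => rfl
  have hmono : StrictMono fun k => (sq k).1.2 := by
    apply strictMono_nat_of_lt_succ
    intro k
    rw [hsq]
    exact hnx1 k (sq k)
  -- branch lists
  let br : (ℕ → Bool) → ℕ → List Bool := fun b k => (List.range k).map b
  have hbr : ∀ b k, br b (k + 1) = br b k ++ [b k] := by
    intro b k; simp [br, List.range_succ]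
  have hlen : ∀ b k, (br b k).length = k := by intro b k; simp [br]
  have hpt : ∀ b : ℕ → Bool, (⋂ k, (sq k).1.1 (br b k)).Nonempty := by
    intro b
    apply IsCompact.nonempty_iInter_of_sequence_nonempty_isCompact_isClosed
    · intro k
      rw [hbr, hsq]
      exact (hnx2 k (sq k) (br b k) (hlen b k) (b k)).trans inter_subset_left
    · intro k
      rw [nonempty_iff_ne_empty]
      intro h0
      apply ((sq k).2 (br b k)).2.1
      rw [h0]; exact countable_empty
    · exact ((sq 0).2 _).1.isCompact
    · intro k; exact ((sq k).2 _).1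
  choose pt hpt using hpt
  have hpt' : ∀ b k, pt b ∈ (sq k).1.1 (br b k) := fun b k => mem_iInter.mp (hpt b) k
  have hinj : Function.Injective pt := by
    intro b b' hbb
    by_contra hne
    have hex : ∃ k, b k ≠ b' k := by
      by_contra hall
      push Not at hall
      exact hne (funext hall)
    -- first difference
    set k := Nat.find hex with hk
    have hk1 : b k ≠ b' k := Nat.find_spec hex
    have hk2 : ∀ j < k, b j = b' j := fun j hj => by
      have := Nat.find_min hex hj
      push Not at this
      exact this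
    have hbrk : br b k = br b' k := by
      apply List.map_congr_left
      intro j hj
      exact hk2 j (List.mem_range.mp hj)
    have h1 := hpt' b (k + 1)
    have h2 := hpt' b' (k + 1)
    rw [hbr, hsq] at h1 h2
    rw [← hbrk, ← hbb] at h2
    have hd := hnx3 k (sq k) (br b k) (hlen b k)
    rw [Set.disjoint_left] at hd
    cases hb0 : b k <;> cases hb1 : b' k
    · rw [hb0, hb1] at hk1; exact hk1 rfl
    · rw [hb0] at h1; rw [hb1] at h2; exact hd h1 h2
    · rw [hb0] at h1; rw [hb1] at h2; exact hd h2 h1
    · rw [hb0, hb1] at hk1; exact hk1 rfl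
  have hzero : ∀ b k, pt b ((sq (k + 1)).1.2) = false := by
    intro b k
    have h1 := hpt' b (k + 1)
    rw [hbr, hsq] at h1
    exact (hnx2 k (sq k) (br b k) (hlen b k) (b k) h1).2
  have hcount := hcon (range fun k => (sq (k + 1)).1.2)
    (infinite_range_of_injective fun i j hij => by
      have := hmono.injective (a₁ := i + 1) (a₂ := j + 1) hij
      omega) (fun _ => false)
  have hrange : (range pt).Countable := by
    refine hcount.mono ?_
    rintro _ ⟨b, rfl⟩
    refine ⟨((sq 0).2 (br b 0)).2.2 (hpt' b 0), ?_⟩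
    rintro _ ⟨k, rfl⟩
    exact hzero b k
  have hcc : Countable (ℕ → Bool) := by
    have h1 : Countable (range pt) := hrange
    exact (Set.rangeFactorization_injective.mpr hinj).countable
  exact not_countable_cantor hcc

end Comb

/-! ### Subsums -/

section Sums

variable (x : ℕ → ℝ)

/-- the term of the subsum -/
noncomputable def tm (ε : ℕ → Bool) (n : ℕ) : ℝ := if ε n then x n else 0

lemma tm_nonneg (hpos : ∀ n, 0 < x n) (ε : ℕ → Bool) (n : ℕ) : 0 ≤ tm x ε n := by
  unfold tm; split_ifs
  · exact (hpos n).le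
  · exact le_rfl

lemma tm_le (hpos : ∀ n, 0 < x n) (ε : ℕ → Bool) (n : ℕ) : tm x ε n ≤ x n := by
  unfold tm; split_ifs
  · exact le_rfl
  · exact (hpos n).le

lemma summable_tm (hpos : ∀ n, 0 < x n) (hs : Summable x) (ε : ℕ → Bool) :
    Summable (tm x ε) :=
  Summable.of_nonneg_of_le (tm_nonneg x hpos ε) (tm_le x hpos ε) hs

lemma continuous_subsum (hpos : ∀ n, 0 < x n) (hs : Summable x) : Continuous (subsum x) := by
  unfold subsum
  refine continuous_tsum (u := x) (fun n => ?_) hs (fun n ε => ?_)
  · have h1 : Continuous fun b : Bool => if b then x n else 0 := continuous_of_discreteTopology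
    exact h1.comp (continuous_apply n)
  · have h1 := tm_nonneg x hpos ε n
    have h2 := tm_le x hpos ε n
    rw [Real.norm_eq_abs]
    change |tm x ε n| ≤ x n
    rwa [abs_of_nonneg h1]

lemma polish_cantor : PolishSpace (ℕ → Bool) := by
  have h1 : TopologicalSpace.IsCompletelyMetrizableSpace (ℕ → Bool) :=
    TopologicalSpace.IsCompletelyMetrizableSpace.pi_countable
  have h2 : TopologicalSpace.SeparableSpace (ℕ → Bool) := inferInstance
  exact @instPolishSpaceOfSeparableSpaceOfIsCompletelyMetrizableSpace _ _ h2 h1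

lemma card_of_not_countable (hpos : ∀ n, 0 < x n) (hs : Summable x) (t : ℝ)
    (h : ¬ {ε | subsum x ε = t}.Countable) : t ∈ level x 𝔠 := by
  have hcl : IsClosed {ε | subsum x ε = t} :=
    isClosed_eq (continuous_subsum x hpos hs) continuous_const
  have := polish_cantor
  obtain ⟨f, hf, -, hinj⟩ := hcl.exists_nat_bool_injection_of_not_countable h
  change #{ε : ℕ → Bool // subsum x ε = t} = 𝔠
  apply le_antisymm
  · rw [← mk_cantor]
    exact Cardinal.mk_le_of_injective Subtype.val_injective
  · rw [← mk_cantor]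
    let g : (ℕ → Bool) → {ε : ℕ → Bool // subsum x ε = t} := fun b => ⟨f b, hf ⟨b, rfl⟩⟩
    apply Cardinal.mk_le_of_injective (f := g)
    intro b b' hbb
    exact hinj (congrArg Subtype.val hbb)

lemma not_countable_of_card (t : ℝ) (h : t ∈ level x 𝔠) : ¬ {ε | subsum x ε = t}.Countable := by
  intro hc
  have h1 : #{ε : ℕ → Bool // subsum x ε = t} = 𝔠 := h
  have h2 : #{ε : ℕ → Bool // subsum x ε = t} ≤ ℵ₀ := Cardinal.mk_le_aleph0_iff.mpr hc
  rw [h1] at h2
  exact absurd h2 (not_le.mpr Cardinal.aleph0_lt_continuum)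

/-- sparse subsums are injective -/
lemma subsum_injective (y : ℕ → ℝ) (hpos : ∀ n, 0 < y n) (hs : Summable y)
    (h3 : ∀ k, y (k + 1) ≤ y k / 3) : Function.Injective (subsum y) := by
  intro η η' heq
  by_contra hne
  have hex : ∃ k, η k ≠ η' k := by
    by_contra hall
    push Not at hall
    exact hne (funext hall)
  -- WLOG the first difference has `η k = true`
  have main : ∀ η η' : ℕ → Bool, ∀ k, η k = true → η' k = false → (∀ j < k, η j = η' j) →
      subsum y η ≠ subsum y η' := by
    intro η η' k hk hk' hlt heq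
    have hgeo : ∀ i, y (i + k) ≤ y k * (1 / 3) ^ i := by
      intro i
      induction i with
      | zero => simp
      | succ i ih =>
        have h1 := h3 (i + k)
        have e1 : i + 1 + k = i + k + 1 := by ring
        rw [e1, pow_succ]
        linarith
    set g : ℕ → ℝ := fun j => tm y η j - tm y η' j with hg
    have hgs : Summable g := (summable_tm y hpos hs η).sub (summable_tm y hpos hs η')
    have hsum : ∑' j, g j = 0 := by
      rw [(summable_tm y hpos hs η).tsum_sub (summable_tm y hpos hs η')]
      change subsum y η - subsum y η' = 0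
      rw [heq, sub_self]
    have hsplit := hgs.sum_add_tsum_nat_add (k + 1)
    rw [hsum, Finset.sum_range_succ] at hsplit
    have h0 : ∑ j ∈ Finset.range k, g j = 0 := by
      apply Finset.sum_eq_zero
      intro j hj
      simp only [hg, tm, hlt j (Finset.mem_range.mp hj), sub_self]
    have hgk : g k = y k := by simp [hg, tm, hk, hk']
    have habs : ∀ i, |g (i + (k + 1))| ≤ y k / 3 * (1 / 3) ^ i := by
      intro i
      have h1 := hgeo (i + 1)
      have e1 : i + 1 + k = i + (k + 1) := by ring
      rw [e1, pow_succ] at h1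
      have h4 := tm_nonneg y hpos η (i + (k + 1))
      have h5 := tm_le y hpos η (i + (k + 1))
      have h6 := tm_nonneg y hpos η' (i + (k + 1))
      have h7 := tm_le y hpos η' (i + (k + 1))
      simp only [hg]
      rw [abs_le]
      constructor <;> linarith
    have hgeosum : HasSum (fun i : ℕ => y k / 3 * (1 / 3 : ℝ) ^ i) (y k / 3 * (1 - 1 / 3)⁻¹) :=
      (hasSum_geometric_of_lt_one (by norm_num) (by norm_num)).mul_left _
    have htail : ‖∑' i, g (i + (k + 1))‖ ≤ y k / 3 * (1 - 1 / 3)⁻¹ :=
      tsum_of_norm_bounded hgeosum habs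
    rw [Real.norm_eq_abs, abs_le] at htail
    have hyk := hpos k
    rw [h0, hgk] at hsplit
    norm_num at htail
    linarith [htail.1]
  set k := Nat.find hex with hk
  have hk1 : η k ≠ η' k := Nat.find_spec hex
  have hk2 : ∀ j < k, η j = η' j := fun j hj => by
    have := Nat.find_min hex hj
    push Not at this
    exact this
  cases h1 : η k <;> cases h2 : η' k
  · rw [h1, h2] at hk1; exact hk1 rfl
  · exact main η' η k h2 h1 (fun j hj => (hk2 j hj).symm) heq.symm
  · exact main η η' k h1 h2 hk2 heq
  · rw [h1, h2] at hk1; exact hk1 rfl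

/-- sparse subsequence inside an infinite set -/
lemma exists_sparse (hpos : ∀ n, 0 < x n) (hs : Summable x) (B : Set ℕ) (hB : B.Infinite) :
    ∃ m : ℕ → ℕ, StrictMono m ∧ (∀ k, m k ∈ B) ∧ ∀ k, x (m (k + 1)) ≤ x (m k) / 3 := by
  have hnext : ∀ k, ∃ m' ∈ B, k < m' ∧ x m' ≤ x k / 3 := by
    intro k
    have h1 := hs.tendsto_atTop_zero.eventually (ge_mem_nhds (by have := hpos k; positivity :
      (0 : ℝ) < x k / 3))
    obtain ⟨N, hN⟩ := Filter.eventually_atTop.mp h1
    obtain ⟨m', hm', hlt⟩ := hB.exists_gt (max N k)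
    exact ⟨m', hm', (le_max_right N k).trans_lt hlt, hN m' ((le_max_left N k).trans hlt.le)⟩
  choose nx h1 h2 h3 using hnext
  let m : ℕ → ℕ := fun k => Nat.rec (nx 0) (fun _ p => nx p) k
  have hm : ∀ k, m (k + 1) = nx (m k) := fun k => rfl
  refine ⟨m, strictMono_nat_of_lt_succ fun k => ?_, fun k => ?_, fun k => ?_⟩
  · rw [hm]; exact h2 _
  · cases k with
    | zero => exact h1 0
    | succ k => rw [hm]; exact h1 _
  · rw [hm]; exact h3 _

open Classical in
/-- overwrite the coordinates `m k` of `ε` by `η k` -/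
noncomputable def modif (m : ℕ → ℕ) (ε η : ℕ → Bool) : ℕ → Bool :=
  fun n => if h : ∃ k, m k = n then η h.choose else ε n

lemma modif_at (m : ℕ → ℕ) (hm : Function.Injective m) (ε η : ℕ → Bool) (k : ℕ) :
    modif m ε η (m k) = η k := by
  unfold modif
  have h : ∃ j, m j = m k := ⟨k, rfl⟩
  rw [dif_pos h, hm h.choose_spec]

lemma modif_off (m : ℕ → ℕ) (ε η : ℕ → Bool) (n : ℕ) (h : ¬ ∃ k, m k = n) :
    modif m ε η n = ε n := by
  unfold modif
  rw [dif_neg h]

lemma subsum_modif (hpos : ∀ n, 0 < x n) (hs : Summable x) (m : ℕ → ℕ)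
    (hm : Function.Injective m) (ε η : ℕ → Bool) :
    subsum x (modif m ε η) = subsum x (modif m ε fun _ => false) + subsum (x ∘ m) η := by
  classical
  set g : ℕ → ℝ := fun n => tm x (modif m ε η) n - tm x (modif m ε fun _ => false) n with hg
  have h1 : ∑' n, g n = subsum x (modif m ε η) - subsum x (modif m ε fun _ => false) :=
    (summable_tm x hpos hs _).tsum_sub (summable_tm x hpos hs _)
  have hsupp : Function.support g ⊆ Set.range m := by
    intro n hn
    by_contra hcon
    apply hn
    have h' : ¬ ∃ k, m k = n := hcon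
    simp only [hg, tm, modif_off m ε η n h', modif_off m ε (fun _ => false) n h', sub_self]
  have h2 : ∑' k, g (m k) = ∑' n, g n := hm.tsum_eq hsupp
  have h3 : ∑' k, g (m k) = subsum (x ∘ m) η := by
    unfold subsum
    congr 1
    funext k
    simp only [hg, tm, modif_at m hm, Function.comp_apply]
    simp
  linarith

lemma modif_self (m : ℕ → ℕ) (ε δ : ℕ → Bool) (h : ∀ k, ε (m k) = δ (m k)) :
    modif m ε (δ ∘ m) = ε := by
  funext n
  by_cases hn : ∃ k, m k = n
  · have h2 := hn.choose_spec
    unfold modif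
    rw [dif_pos hn, Function.comp_apply, ← h, h2]
  · exact modif_off m ε _ n hn

end Sums

/-- **Q1.** For every convergent series `∑ x_n` with positive terms, the level set
`L_𝔠(x) = {t : F_x(t) = 𝔠}` of the cardinality function is either empty or contains a Cantor set
(a subset of `ℝ` homeomorphic to the Cantor space `{0,1}^ℕ`). -/
theorem result (x : ℕ → ℝ) (hpos : ∀ n, 0 < x n) (hs : Summable x) :
    level x 𝔠 = ∅ ∨ ∃ K : Set ℝ, K ⊆ level x 𝔠 ∧ Nonempty (K ≃ₜ (ℕ → Bool)) := by
  rw [or_iff_not_imp_left]
  intro hne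
  obtain ⟨t, ht⟩ := Set.nonempty_iff_ne_empty.mpr hne
  have hunc := not_countable_of_card x t ht
  have hcl : IsClosed {ε | subsum x ε = t} :=
    isClosed_eq (continuous_subsum x hpos hs) continuous_const
  obtain ⟨B, hB, δ, hδ⟩ := comb _ hcl hunc
  obtain ⟨m, hm, hmB, hm3⟩ := exists_sparse x hpos hs B hB
  set y := x ∘ m with hy
  have hypos : ∀ n, 0 < y n := fun n => hpos _
  have hys : Summable y := hs.comp_injective hm.injective
  have hinj : Function.Injective (subsum y) := subsum_injective y hypos hys hm3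
  set φ : (ℕ → Bool) → ℝ := fun η => t - subsum y (δ ∘ m) + subsum y η with hφ
  have hφc : Continuous φ := continuous_const.add (continuous_subsum y hypos hys)
  have hφi : Function.Injective φ := by
    intro η η' h
    apply hinj
    simp only [hφ] at h
    linarith
  have hemb : Topology.IsClosedEmbedding φ := hφc.isClosedEmbedding hφi
  refine ⟨Set.range φ, ?_, ⟨hemb.isEmbedding.toHomeomorph.symm⟩⟩
  rintro _ ⟨η, rfl⟩
  apply card_of_not_countable x hpos hs
  intro hcount
  apply hδ
  -- inject the uncountable set into the fibre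
  have hmaps : Set.MapsTo (fun ε => modif m ε η)
      {ε | ε ∈ {ε | subsum x ε = t} ∧ ∀ n ∈ B, ε n = δ n} {ε | subsum x ε = φ η} := by
    rintro ε ⟨h1, h2⟩
    have h1' : subsum x ε = t := h1
    have e1 := subsum_modif x hpos hs m hm.injective ε η
    have e2 := subsum_modif x hpos hs m hm.injective ε (δ ∘ m)
    rw [modif_self m ε δ fun k => h2 _ (hmB k)] at e2
    change subsum x (modif m ε η) = t - subsum y (δ ∘ m) + subsum y η
    rw [e1, hy]
    linarith
  have hinjOn : Set.InjOn (fun ε => modif m ε η)
      {ε | ε ∈ {ε | subsum x ε = t} ∧ ∀ n ∈ B, ε n = δ n} := by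
    rintro ε ⟨-, h2⟩ ε' ⟨-, h2'⟩ heq
    funext n
    by_cases hn : ∃ k, m k = n
    · obtain ⟨k, rfl⟩ := hn
      rw [h2 _ (hmB k), h2' _ (hmB k)]
    · have := congrFun heq n
      simp only at this
      rwa [modif_off m ε η n hn, modif_off m ε' η n hn] at this
  exact hmaps.countable_of_injOn hinjOn hcount

end Pool.Agent.Results.MP_c42e77_an.ContinuumLevel
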